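import Pool.Agent.Helper51.REC.Goals2

/-!
# Project REC, packet L_UNI: `S`-units modulo `p`-th powers
-/

set_option autoImplicit false

namespace Pool.Agent.Helper95.REC

open NumberField Module IsDedekindDomain Pool.Agent.Helper51.RP Pool.Agent.Helper42.PP
open Pool.Agent.Helper51.REC

theorem basis_lift (R : Type) [CommRing R] [IsDomain R] [IsPrincipalIdealRing R] (M : Type) [AddCommGroup M] [Module R M] [Module.Finite R M] (r : ℕ) (hr : finrank R (M ⧸ Submodule.torsion R M) = r) :
    ∃ u : Fin r → M, ∀ c : Fin r → R, ∀ p : R, ∀ y : M, ∀ t ∈ Submodule.torsion R M, 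
      ∑ i, c i • u i = p • y + t → ∀ i, p ∣ c i := by
  have : Module.Free R (M ⧸ Submodule.torsion R M) := inferInstance
  obtain ⟨B⟩ : Nonempty (Basis (Fin r) R (M ⧸ Submodule.torsion R M)) :=
    ⟨(Module.finBasis R (M ⧸ Submodule.torsion R M)).reindex (finCongr hr)⟩
  have hlift : ∀ i, ∃ u : M, (Submodule.torsion R M).mkQ u = B i := fun i ↦
    Submodule.mkQ_surjective _ (B i)
  choose u hu using hlift
  refine ⟨u, fun c p y t ht h i ↦ ?_⟩
  have h0 : (Submodule.torsion R M).mkQ t = 0 := by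
    simpa using ht
  have h1 := congrArg (Submodule.torsion R M).mkQ h
  rw [map_sum, map_add, h0, add_zero, map_smul] at h1
  simp only [map_smul, hu] at h1
  have h2 := congrArg (fun v ↦ B.repr v i) h1
  simp only [map_sum, map_smul, Basis.repr_self, Finsupp.coe_finsetSum, Finset.sum_apply, Finsupp.smul_apply, Finsupp.single_apply, smul_eq_mul, mul_ite, mul_one, mul_zero] at h2
  simp at h2
  exact ⟨_, h2⟩

theorem sat_tors (p : ℕ) [hp : Fact p.Prime] (M : Type) [AddCommGroup M] 
    (z : M) (hz : z ∈ Submodule.torsion ℤ M) (y : M) (hy : z = p • y) : y ∈ Submodule.torsion ℤ M := by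
  have hp0 : p ≠ 0 := hp.out.ne_zero
  obtain ⟨⟨a, ha⟩, h⟩ := (Submodule.mem_torsion_iff z).mp hz
  refine (Submodule.mem_torsion_iff y).mpr ⟨⟨a * p, mem_nonZeroDivisors_of_ne_zero (mul_ne_zero (nonZeroDivisors.ne_zero ha)
        (by exact_mod_cast hp0))⟩, ?_⟩
  have h' : a • z = 0 := h
  have h2 : (a * (p : ℤ)) • y = 0 := by
    rw [mul_smul, natCast_zsmul, ← hy]; exact h'
  exact h2

theorem tors_elt (p : ℕ) [hp : Fact p.Prime] (M : Type) [AddCommGroup M] [Module.Finite ℤ M]
    (e : M) (he0 : e ≠ 0) (hep : p • e = 0) : 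
    ∃ z ∈ Submodule.torsion ℤ M, ∀ y : M, z ≠ p • y := by
  have hp0 : p ≠ 0 := hp.out.ne_zero
  have hTfin : _root_.Finite (Submodule.torsion ℤ M) :=
    Module.finite_of_fg_torsion _ (Submodule.torsion_isTorsion)
  have heT : e ∈ Submodule.torsion ℤ M := by
    apply sat_tors p M 0 (Submodule.zero_mem _) e hep.symm
  by_contra hcon
  push Not at hcon
  have hsur : Function.Surjective (fun t : Submodule.torsion ℤ M ↦ p • t) := fun z ↦ by
      obtain ⟨t, ht⟩ := hcon z z.2
      exact ⟨⟨t, sat_tors p M z z.2 t ht⟩, Subtype.ext ht.symm⟩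
  have hinj := Finite.injective_iff_surjective.mpr hsur
  have h1 : (⟨e, heT⟩ : Submodule.torsion ℤ M) = 0 := by
      apply hinj
      ext
      simp [hep]
  exact he0 (by simpa using congrArg Subtype.val h1)

/-- In a finitely generated abelian group of rank `r` with an element of order `p` there are
`p^(r+1)` elements which are pairwise incongruent modulo `p`. -/
theorem many_classes (p : ℕ) [hp : Fact p.Prime] (M : Type) [AddCommGroup M] [Module.Finite ℤ M]
    (e : M) (he0 : e ≠ 0) (hep : p • e = 0) (r : ℕ) (hr : finrank ℤ M = r) :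
    ∃ g : (Fin r → Fin p) × Fin p → M, ∀ a b, (∃ y : M, g a - g b = p • y) → a = b := by
  obtain ⟨z, hzT, hz⟩ := tors_elt p M e he0 hep
  obtain ⟨u, hu⟩ := basis_lift ℤ M r ((finrank_quotient_eq_of_le_torsion le_rfl).trans hr)
  refine ⟨fun a ↦ (∑ i, ((a.1 i : ℕ) : ℤ) • u i) + ((a.2 : ℕ) : ℤ) • z, ?_⟩
  rintro ⟨a, a'⟩ ⟨b, b'⟩ ⟨y, hy⟩
  simp only at hy
  have hab : a = b := by
    have h6 := hu (fun i ↦ ((a i : ℕ) : ℤ) - ((b i : ℕ) : ℤ)) p y
      ((((b' : ℕ) : ℤ) - ((a' : ℕ) : ℤ)) • z) (Submodule.smul_mem _ _ hzT) (by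
        rw [natCast_zsmul, ← hy]
        simp only [sub_smul, Finset.sum_sub_distrib]
        abel)
    funext i
    have h7 : ((a i : ℕ) : ℤ) - ((b i : ℕ) : ℤ) = 0 := by
      apply Int.eq_zero_of_abs_lt_dvd (h6 i)
      rw [abs_lt]
      have := (a i).2; have := (b i).2
      constructor <;> omega
    exact Fin.ext (by omega)
  subst hab
  have hab' : a' = b' := by
    by_contra hne
    have h8 : (((a' : ℕ) : ℤ) - ((b' : ℕ) : ℤ)) • z = (p : ℤ) • y := by
      rw [natCast_zsmul, ← hy, sub_smul]; abel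
    have hcop : IsCoprime (p : ℤ) (((a' : ℕ) : ℤ) - ((b' : ℕ) : ℤ)) := by
      refine (Prime.coprime_iff_not_dvd (Nat.prime_iff_prime_int.mp hp.out)).mpr fun hd ↦ hne ?_
      have h7 : ((a' : ℕ) : ℤ) - ((b' : ℕ) : ℤ) = 0 := by
        apply Int.eq_zero_of_abs_lt_dvd hd
        rw [abs_lt]
        have := a'.2; have := b'.2
        constructor <;> omega
      exact Fin.ext (by omega)
    obtain ⟨s, t, hst⟩ := hcop
    apply hz (s • z + t • y)
    calc z = (s * p + t * (((a' : ℕ) : ℤ) - ((b' : ℕ) : ℤ))) • z := by rw [hst, one_smul]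
      _ = s • ((p : ℤ) • z) + t • ((((a' : ℕ) : ℤ) - ((b' : ℕ) : ℤ)) • z) := by
        rw [add_smul, mul_smul, mul_smul]
      _ = s • ((p : ℤ) • z) + t • ((p : ℤ) • y) := by rw [h8]
      _ = p • (s • z + t • y) := by
        rw [← natCast_zsmul, smul_add, smul_comm s, smul_comm t]
  rw [hab']

/-- The rank of the units of a totally complex field. -/
theorem rank_cplx (F : Type) [Field F] [NumberField F] (h : IsTotallyComplex F) :
    Units.rank F + 1 = finrank ℚ F / 2 := by
  have h1 := h.finrank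
  have h2 : 0 < finrank ℚ F := finrank_pos
  have h3 : Fintype.card (InfinitePlace F) = InfinitePlace.nrRealPlaces F + InfinitePlace.nrComplexPlaces F :=
    InfinitePlace.card_eq_nrRealPlaces_add_nrComplexPlaces F
  have h4 : InfinitePlace.nrRealPlaces F = 0 := IsTotallyComplex.nrRealPlaces_eq_zero F
  unfold Units.rank
  omega

/-- `L_UNI`. -/
theorem l_uni (h1 : H_RNK) : Pool.Agent.Helper51.REC.L_UNI := by
  intro p hp F _ _ ε S hS
  classical
  obtain ⟨hfg, hrk⟩ := h1 F S hS.fin
  have hrank := rank_cplx F hS.cplx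
  have hp0 : p ≠ 0 := hp.out.ne_zero
  -- an element is an `S`-unit if its `p`-th power is one
  have hsat : ∀ y : Fˣ, y ^ p ∈ S.unit F → y ∈ S.unit F := by
    intro y hy v hv
    have h2 : v.valuation F ((y : F)) ^ p = 1 := by
      have := hy v hv
      simpa using this
    have h3 := (pow_eq_one_iff_left hp0).mp h2
    simpa using h3
  have hε1 : ε ^ p = 1 := hS.prim.pow_eq_one
  have hε0 : ε ≠ 0 := hS.prim.ne_zero hp0
  have hεu : Units.mk0 ε hε0 ∈ S.unit F := by
    apply hsat
    have : Units.mk0 ε hε0 ^ p = 1 := by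
      ext; simp [hε1]
    rw [this]; exact one_mem _
  have hfin : Module.Finite ℤ (Additive (S.unit F)) := by
    have : AddGroup.FG (Additive (S.unit F)) := by
      exact GroupFG.iff_add_fg.mp hfg
    exact Module.Finite.iff_addGroup_fg.mpr this
  obtain ⟨g, hg⟩ := many_classes p (Additive (S.unit F))
    (Additive.ofMul ⟨Units.mk0 ε hε0, hεu⟩) (by
      intro h
      have h5 : (⟨Units.mk0 ε hε0, hεu⟩ : S.unit F) = 1 := h
      have h6 : ε = 1 := by
        have := congrArg (fun x : S.unit F ↦ ((x : Fˣ) : F)) h5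
        simpa using this
      exact hS.prim.ne_one hp.out.one_lt h6) (by
      apply Additive.toMul.injective
      ext
      simp [hε1]) _ hrk
  have hinj : ∀ a b, (∃ y : Fˣ, ((Additive.toMul (g a) : S.unit F) : Fˣ) /
      ((Additive.toMul (g b) : S.unit F) : Fˣ) = y ^ p) → a = b := by
    rintro a b ⟨y, hy⟩
    have hyu : y ∈ S.unit F := by
      apply hsat
      rw [← hy]
      exact div_mem (Additive.toMul (g a)).2 (Additive.toMul (g b)).2
    apply hg a b
    refine ⟨Additive.ofMul ⟨y, hyu⟩, ?_⟩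
    apply Additive.toMul.injective
    apply Subtype.ext
    simpa using hy
  refine ⟨Finset.univ.image fun a ↦ ((Additive.toMul (g a) : S.unit F) : Fˣ), ?_, ?_, ?_⟩
  · rw [Finset.card_image_of_injective]
    · simp only [Finset.card_univ, Fintype.card_prod, Fintype.card_fun, Fintype.card_fin]
      rw [← pow_succ]
      congr 1
      omega
    · intro a b hab
      apply hinj a b
      refine ⟨1, ?_⟩
      simp only at hab
      rw [hab]; simp
  · intro x hx
    obtain ⟨a, -, rfl⟩ := Finset.mem_image.mp hx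
    exact (Additive.toMul (g a)).2
  · intro x hx y hy hxy hP
    obtain ⟨a, -, rfl⟩ := Finset.mem_image.mp hx
    obtain ⟨b, -, rfl⟩ := Finset.mem_image.mp hy
    apply hxy
    rw [hinj a b hP]

end Pool.Agent.Helper95.REC
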